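import Mathlib
import Pool.Agent.Lib.MP_053343_lc.Defs
import Pool.Agent.Lib.MP_8fdcc7_lc.Defs
import Pool.Agent.Lib.MP_8fdcc7_lc.Main

/-!
Positive answer to Q1 of MP_8fdcc7_lc: a transitive model of ZFC with a non-p-point
ultrafilter `U` such that `(U, ⊇*) <_T (U, ⊇)`.
-/

namespace Pool.Agent.Results.MP_8fdcc7_lc.Q1Model

open Pool.Agent.Lib.MP_053343_lc Pool.Agent.Lib.MP_8fdcc7_lc

theorem result :
    ∃ M : ZFSet.{0}, ModelZF M ∧ AC M ∧ ∃ U : Set (Set ℕ), Ultra M U ∧ ¬ PPoint M U ∧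
      Tukey M U (fun A B => (B \ A).Finite) (fun A B => B ⊆ A) ∧
      ¬ Tukey M U (fun A B => B ⊆ A) (fun A B => (B \ A).Finite) := by
  obtain ⟨C⟩ := Pool.Agent.Shared.Forcing.exists_ctx UR.ev UD.ev
  exact ⟨C.M, C.modelZF, C.choice, UU C, ultra C, not_ppoint C, tukey_id C, not_tukey C⟩

end Pool.Agent.Results.MP_8fdcc7_lc.Q1Model
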