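import Mathlib
import Pool.Agent.Lib.MP_053343_lc.Defs
import Pool.Agent.Lib.MP_8fdcc7_lc.Defs
import Pool.Agent.Lib.MP_8fdcc7_lc.Q2.Defs
import Pool.Agent.Lib.MP_8fdcc7_lc.Q2.Main
import Pool.Agent.Lib.MP_8fdcc7_lc.Q2.Fuse

/-!
Positive answer to Q2 of MP_8fdcc7_lc: a transitive model of ZFC with an ultrafilter `U` such
that `(U, ⊇)` is Tukey-top and `(U, ⊇*)` is not.
-/

namespace Pool.Agent.Results.MP_8fdcc7_lc.Q2Model

open Pool.Agent.Lib.MP_053343_lc Pool.Agent.Lib.MP_8fdcc7_lc Pool.Agent.Lib.MP_8fdcc7_lc.Q2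

theorem result :
    ∃ M : ZFSet.{0}, ModelZF M ∧ AC M ∧ ∃ U : Set (Set ℕ), Ultra M U ∧
      TukeyTop M U (fun A B => B ⊆ A) ∧ ¬ TukeyTop M U (fun A B => (B \ A).Finite) :=
  model add fuse

end Pool.Agent.Results.MP_8fdcc7_lc.Q2Model
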